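import Pool.Agent.Lib.MP_0bc52e_nt.E16.Defs
import Pool.Agent.Lib.MP_0bc52e_nt.LC.P.T3zeq

/-!
# The sixteen polytopes satisfy the criterion for `7`; translation to `Fin 3 → ℝ`
-/

open scoped Pointwise

namespace Pool.Agent.Lib.MP_0bc52e_nt

/-- The set given by linear inequalities `a x + b y + c z ≤ d`. -/
private def hs (L : List (ℤ × ℤ × ℤ × ℤ)) : Set (Fin 3 → ℝ) :=
  {v | ∀ t ∈ L, (t.1 : ℝ) * v 0 + t.2.1 * v 1 + t.2.2.1 * v 2 ≤ t.2.2.2}

private lemma hs_convex (L : List (ℤ × ℤ × ℤ × ℤ)) : Convex ℝ (hs L) := by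
  intro v hv w hw a b ha hb hab t ht
  have h1 := mul_le_mul_of_nonneg_left (hv t ht) ha
  have h2 := mul_le_mul_of_nonneg_left (hw t ht) hb
  simp only [Pi.add_apply, Pi.smul_apply, smul_eq_mul]
  have h3 : (t.2.2.2 : ℝ) = a * t.2.2.2 + b * t.2.2.2 := by rw [← add_mul, hab, one_mul]
  rw [h3]
  linarith

private lemma hs_crit (L : List (ℤ × ℤ × ℤ × ℤ)) (F : Set (Fin 3 → ℝ)) (hF : F ⊆ hs L)
    (h : ∀ j : ℤ, 0 < j → j < 7 → ∀ x y z : ℤ,
      (∀ t ∈ L, t.1 * x + t.2.1 * y + t.2.2.1 * z ≤ j * t.2.2.2) →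
      (7 : ℤ) ∣ x - j → (7 : ℤ) ∣ y + j → (7 : ℤ) ∣ z → False) : Criterion F 7 := by
  refine ⟨![1, -1, 0], ?_⟩
  intro j hj hj7 x hx hc
  obtain ⟨v, hv, hvx⟩ := hx
  refine h j (by exact_mod_cast hj) (by exact_mod_cast hj7) (x 0) (x 1) (x 2) ?_ ?_ ?_ ?_
  · intro t ht
    have h1 := hF hv t ht
    have hjR : (0 : ℝ) < j := by exact_mod_cast hj
    have h2 := mul_le_mul_of_nonneg_left h1 hjR.le
    have e : ∀ i, (x i : ℝ) = j * v i := fun i => (congrFun hvx i).symm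
    have h3 : (t.1 : ℝ) * x 0 + t.2.1 * x 1 + t.2.2.1 * x 2 ≤ j * t.2.2.2 := by
      rw [e 0, e 1, e 2]
      linarith
    exact_mod_cast h3
  · have := hc 0
    simpa using this
  · have := hc 1
    simpa using this
  · have := hc 2
    simpa using this

/-- `A(b)` satisfies the criterion for `7`. -/
theorem famA_crit (b : ℤ) (h1 : 1 ≤ b) (h5 : b ≤ 5) : Criterion (famA b) 7 := by
  have h1R : (1 : ℝ) ≤ b := by exact_mod_cast h1
  have h5R : (b : ℝ) ≤ 5 := by exact_mod_cast h5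
  refine hs_crit [(-2, -15, 10, 0), (-1, 0, 0, 0), (0, -1, 0, 0), (0, -1, 1, 1), (0, 0, -1, 0),
    (1, 1, -5, 1), (1, 1, 2, 8), (1, 15, -5, 15)] _ ?_ ?_
  · refine convexHull_min ?_ (hs_convex _)
    intro v hv t ht
    simp only [Set.mem_insert_iff, Set.mem_singleton_iff] at hv
    simp only [List.mem_cons, List.not_mem_nil, or_false] at ht
    rcases hv with rfl | rfl | rfl | rfl | rfl | rfl | rfl <;>
      rcases ht with rfl | rfl | rfl | rfl | rfl | rfl | rfl | rfl <;>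
      simp <;> linarith
  · intro j hj hj7 x y z hL hx hy hz
    simp only [List.forall_mem_cons, List.not_mem_nil, false_implies, implies_true, and_true] at hL
    obtain ⟨f1, f2, f3, f4, f5, f6, f7, f8⟩ := hL
    obtain ⟨k, rfl⟩ := hz
    obtain ⟨l, hl⟩ := hy
    obtain ⟨i, hi⟩ := hx
    have hk0 : 0 ≤ k := by omega
    have hk2 : k ≤ 2 := by omega
    have hl0 : 0 ≤ l := by omega
    have hl3 : l ≤ 2 := by omega
    interval_cases j <;> interval_cases k <;> interval_cases l <;> omega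

/-- `B(a, b)` satisfies the criterion for `7`. -/
theorem famB_crit (a b : ℤ) (h1 : -2 ≤ a) (h2 : a ≤ 1) (h3 : 1 ≤ b) (h4 : b ≤ 3) :
    Criterion (famB a b) 7 := by
  have h1R : (-2 : ℝ) ≤ a := by exact_mod_cast h1
  have h2R : (a : ℝ) ≤ 1 := by exact_mod_cast h2
  have h3R : (1 : ℝ) ≤ b := by exact_mod_cast h3
  have h4R : (b : ℝ) ≤ 3 := by exact_mod_cast h4
  refine hs_crit [(-1, -7, 5, 0), (-1, 0, -2, 0), (-1, 7, -2, 7), (0, -1, 0, 0), (0, -1, 1, 1),
    (0, 0, -1, 0), (1, 1, -5, 1), (1, 3, -3, 3), (1, 8, -3, 8), (2, 6, -1, 11)] _ ?_ ?_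
  · refine convexHull_min ?_ (hs_convex _)
    intro v hv t ht
    simp only [Set.mem_insert_iff, Set.mem_singleton_iff] at hv
    simp only [List.mem_cons, List.not_mem_nil, or_false] at ht
    rcases hv with rfl | rfl | rfl | rfl | rfl | rfl | rfl | rfl <;>
      rcases ht with rfl | rfl | rfl | rfl | rfl | rfl | rfl | rfl | rfl | rfl <;>
      simp <;> linarith
  · intro j hj hj7 x y z hL hx hy hz
    simp only [List.forall_mem_cons, List.not_mem_nil, false_implies, implies_true, and_true] at hL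
    obtain ⟨f1, f2, f3, f4, f5, f6, f7, f8, f9, f10⟩ := hL
    obtain ⟨k, rfl⟩ := hz
    obtain ⟨l, hl⟩ := hy
    obtain ⟨i, hi⟩ := hx
    have hk0 : 0 ≤ k := by omega
    have hk2 : k ≤ 2 := by omega
    have hl0 : 0 ≤ l := by omega
    have hl3 : l ≤ 2 := by omega
    interval_cases j <;> interval_cases k <;> interval_cases l <;> omega

/-- The last polytope satisfies the criterion for `7`. -/
theorem famC_crit : Criterion famC 7 := by
  refine hs_crit [(-1, -7, 5, 0), (-1, -1, 2, 0), (-1, 0, 1, 0), (0, -1, 0, 0), (0, -1, 1, 1),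
    (0, 0, -1, 0), (1, 1, -5, 1), (1, 1, 2, 8), (3, 10, -8, 10)] _ ?_ ?_
  · refine convexHull_min ?_ (hs_convex _)
    intro v hv t ht
    simp only [Set.mem_insert_iff, Set.mem_singleton_iff] at hv
    simp only [List.mem_cons, List.not_mem_nil, or_false] at ht
    rcases hv with rfl | rfl | rfl | rfl | rfl | rfl | rfl <;>
      rcases ht with rfl | rfl | rfl | rfl | rfl | rfl | rfl | rfl | rfl <;>
      simp <;> norm_num
  · intro j hj hj7 x y z hL hx hy hz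
    simp only [List.forall_mem_cons, List.not_mem_nil, false_implies, implies_true, and_true] at hL
    obtain ⟨f1, f2, f3, f4, f5, f6, f7, f8, f9⟩ := hL
    obtain ⟨k, rfl⟩ := hz
    obtain ⟨l, hl⟩ := hy
    obtain ⟨i, hi⟩ := hx
    have hk0 : 0 ≤ k := by omega
    have hk2 : k ≤ 2 := by omega
    have hl0 : 0 ≤ l := by omega
    have hl3 : l ≤ 2 := by omega
    interval_cases j <;> interval_cases k <;> interval_cases l <;> omega

/-- Integer equivalence passes from `T3 P` to `P`. -/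
theorem T3zeq_gen (P : Set (Fin 3 → ℝ)) (Q : Set (ℝ × ℝ × ℝ)) (h : LC.ZEq (LC.T3 P) Q) :
    IntegerEquivalent P (LC.p_T3zeq_e.symm '' Q) := by
  obtain ⟨g, hI, hg⟩ := h
  refine ⟨(LC.p_T3zeq_e.symm.toLinearMap.toAffineMap.comp g.toAffineMap).comp
    LC.p_T3zeq_e.toLinearMap.toAffineMap, ?_, ?_, ?_⟩
  · intro x y h
    have h1 : LC.p_T3zeq_e.symm (g (LC.p_T3zeq_e x)) = LC.p_T3zeq_e.symm (g (LC.p_T3zeq_e y)) := h
    exact LC.p_T3zeq_e.injective (g.injective (LC.p_T3zeq_e.symm.injective h1))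
  · intro x
    show IsIntVec (LC.p_T3zeq_e.symm (g (LC.p_T3zeq_e x))) ↔ IsIntVec x
    rw [← LC.p_T3zeq_I, ← LC.p_T3zeq_I, LinearEquiv.apply_symm_apply, hI]
  · rw [← hg, LC.p_T3zeq_T3, Set.image_image, Set.image_image]
    rfl

private lemma sym_hull (V : Finset (ℤ × ℤ × ℤ)) :
    LC.p_T3zeq_e.symm '' (T.hull V) =
      convexHull ℝ ((fun v : ℤ × ℤ × ℤ => (![(v.1 : ℝ), (v.2.1 : ℝ), (v.2.2 : ℝ)] : Fin 3 → ℝ)) ''
        (V : Set (ℤ × ℤ × ℤ))) := by
  unfold T.hull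
  have h := LC.p_T3zeq_e.symm.toLinearMap.image_convexHull (LC.ip '' (V : Set (ℤ × ℤ × ℤ)))
  have h2 : (LC.p_T3zeq_e.symm.toLinearMap : (ℝ × ℝ × ℝ) → (Fin 3 → ℝ)) = LC.p_T3zeq_e.symm := rfl
  rw [h2] at h
  rw [h, Set.image_image]
  rfl

theorem inE_of_in16 (P : Set (Fin 3 → ℝ)) (h : T.In16 (LC.T3 P)) : InE P := by
  rcases h with ⟨b, h1, h2, h3⟩ | ⟨a, b, h1, h2, h3, h4, h5, h6⟩ | h
  · refine Or.inl ⟨b, h1, h2, ?_⟩
    have h4 := T3zeq_gen P _ h3
    rw [sym_hull] at h4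
    convert h4 using 2
    unfold T.eA famA
    simp [Set.image_insert_eq]
  · refine Or.inr (Or.inl ⟨a, b, h1, h2, h3, h4, h5, ?_⟩)
    have h7 := T3zeq_gen P _ h6
    rw [sym_hull] at h7
    convert h7 using 2
    unfold T.eB famB
    simp [Set.image_insert_eq]
  · refine Or.inr (Or.inr ?_)
    have h4 := T3zeq_gen P _ h
    rw [sym_hull] at h4
    convert h4 using 2
    unfold T.eC famC
    simp [Set.image_insert_eq]

/-- The criterion passes from `T3 P` to `P`. -/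
theorem crit_of_T3 (P : Set (Fin 3 → ℝ)) (p : ℕ) (h : T.Cr (LC.T3 P) p) : Criterion P p := by
  obtain ⟨a, b, c, h⟩ := h
  refine ⟨![a, b, c], ?_⟩
  intro j hj hjp x hx hc
  obtain ⟨v, hv, hvx⟩ := hx
  have e : ∀ i, (x i : ℝ) = j * v i := fun i => (congrFun hvx i).symm
  refine h j hj hjp (x 0) (x 1) (x 2) (v 0) (v 1) (v 2) ?_ (e 0) (e 1) (e 2) ?_ ?_ ?_
  · show ![v 0, v 1, v 2] ∈ P
    have : ![v 0, v 1, v 2] = v := by
      funext i
      fin_cases i <;> rfl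
    rw [this]
    exact hv
  · have := hc 0
    simpa using this
  · have := hc 1
    simpa using this
  · have := hc 2
    simpa using this

end Pool.Agent.Lib.MP_0bc52e_nt
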