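import Pool.Agent.Lib.MP_0bc52e_nt.T.Defs
import Pool.Agent.Lib.MP_0bc52e_nt.LC.Defs3

/-!
# The sixteen exceptional polytopes (MP_0bc52e_nt)

All of them contain the pyramid with vertices `(0,0,0), (1,0,0), (0,1,0), (5,0,1), (6,0,1)`, and all of them satisfy the
criterion for `p = 7` at `o = (1, -1, 0)`.
-/

open scoped Pointwise

namespace Pool.Agent.Lib.MP_0bc52e_nt.T

open Pool.Agent.Lib.MP_0bc52e_nt.LC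

/-- The polytope `A(b)`, `1 ≤ b ≤ 5`. -/
def eA (b : ℤ) : Finset (ℤ × ℤ × ℤ) :=
  {(0, 0, 0), (1, 0, 0), (0, 1, 0), (5, 0, 1), (6, 0, 1), (0, 2, 3), (b, 1, 1)}

/-- The polytope `B(a, b)`, `-2 ≤ a ≤ 1 ≤ b ≤ 3`, `a + 3 ≤ 2 b`. -/
def eB (a b : ℤ) : Finset (ℤ × ℤ × ℤ) :=
  {(0, 0, 0), (1, 0, 0), (0, 1, 0), (5, 0, 1), (6, 0, 1), (1, 2, 3), (a, 1, 1), (b, 1, 1)}

/-- The last polytope. -/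
def eC : Finset (ℤ × ℤ × ℤ) :=
  {(0, 0, 0), (1, 0, 0), (0, 1, 0), (5, 0, 1), (6, 0, 1), (2, 2, 2), (3, 1, 2)}

/-- `P` is integer equivalent to one of the sixteen polytopes. -/
def In16 (P : Set (ℝ × ℝ × ℝ)) : Prop :=
  (∃ b : ℤ, 1 ≤ b ∧ b ≤ 5 ∧ ZEq P (hull (eA b))) ∨
  (∃ a b : ℤ, -2 ≤ a ∧ a ≤ 1 ∧ 1 ≤ b ∧ b ≤ 3 ∧ a + 3 ≤ 2 * b ∧ ZEq P (hull (eB a b))) ∨
  ZEq P (hull eC)

/-- The case `p = 7`. -/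
def S_E7 : Prop := ∀ P : Set (ℝ × ℝ × ℝ), IsLP3 P → PC3 P → ¬ Hollow P → Cr P 7 → Cr P 3 ∨ Cr P 5 ∨ In16 P

/-- The case `p = 11`. -/
def S_E11 : Prop := ∀ P : Set (ℝ × ℝ × ℝ), IsLP3 P → PC3 P → ¬ Hollow P → Cr P 11 → Cr P 3 ∨ Cr P 5 ∨ In16 P

end Pool.Agent.Lib.MP_0bc52e_nt.T

namespace Pool.Agent.Lib.MP_0bc52e_nt

/-- `A(b)` in `Fin 3 → ℝ`. -/
def famA (b : ℤ) : Set (Fin 3 → ℝ) :=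
  convexHull ℝ {![0, 0, 0], ![1, 0, 0], ![0, 1, 0], ![5, 0, 1], ![6, 0, 1], ![0, 2, 3], ![(b : ℝ), 1, 1]}

/-- `B(a, b)` in `Fin 3 → ℝ`. -/
def famB (a b : ℤ) : Set (Fin 3 → ℝ) :=
  convexHull ℝ {![0, 0, 0], ![1, 0, 0], ![0, 1, 0], ![5, 0, 1], ![6, 0, 1], ![1, 2, 3], ![(a : ℝ), 1, 1],
    ![(b : ℝ), 1, 1]}

/-- The last one in `Fin 3 → ℝ`. -/
def famC : Set (Fin 3 → ℝ) :=
  convexHull ℝ {![0, 0, 0], ![1, 0, 0], ![0, 1, 0], ![5, 0, 1], ![6, 0, 1], ![2, 2, 2], ![3, 1, 2]}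

/-- `P` is integer equivalent to one of the sixteen polytopes. -/
def InE (P : Set (Fin 3 → ℝ)) : Prop :=
  (∃ b : ℤ, 1 ≤ b ∧ b ≤ 5 ∧ IntegerEquivalent P (famA b)) ∨
  (∃ a b : ℤ, -2 ≤ a ∧ a ≤ 1 ∧ 1 ≤ b ∧ b ≤ 3 ∧ a + 3 ≤ 2 * b ∧ IntegerEquivalent P (famB a b)) ∨
  IntegerEquivalent P famC

end Pool.Agent.Lib.MP_0bc52e_nt
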