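import Pool.Agent.Lib.MP_0bc52e_nt.E16.Conv
import Pool.Agent.Lib.MP_0bc52e_nt.K.Main
import Pool.Agent.Lib.MP_0bc52e_nt.T7.All

/-!
# The final theorem from the non-hollow case for `p = 7` and `p = 11`
-/

open scoped Pointwise
open MeasureTheory

namespace Pool.Agent.Lib.MP_0bc52e_nt

/-- The criterion for `7`. -/
theorem e16_seven (h7 : T.S_E7) (P : Set (Fin 3 → ℝ)) (hP : IsIntegerPolytope P)
    (nm : ¬ LC.Miss2 P) (hC : Criterion P 7) :
    Criterion P 3 ∨ Criterion P 5 ∨ LC.InFam P ∨ InE P := by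
  have hlp := LC.q_T3lp P hP
  have hpc := LC.q_T3pc P nm
  have hcr := LC.q_T3crit P 7 hC
  by_cases hh : T.Hollow (LC.T3 P)
  · obtain ⟨C, s, t, r1, r2, r3, r4⟩ := T.qH_TH (LC.T3 P) 7 hlp hpc hh (by norm_num) le_rfl hcr
    refine Or.inr (Or.inr (Or.inl ⟨C, s, t, r1, ?_, r3, LC.q_T3zeq P C s t r4⟩))
    have hC0 : C ≠ 0 := by
      rintro rfl
      simp at r1
    have h1 : ((7 : ℕ) : ℤ) ≤ |C| := Int.le_of_dvd (abs_pos.2 hC0) ((dvd_abs _ _).2 r2)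
    push_cast at h1
    linarith
  · rcases h7 (LC.T3 P) hlp hpc hh hcr with h | h | h
    · exact Or.inl (crit_of_T3 P 3 h)
    · exact Or.inr (Or.inl (crit_of_T3 P 5 h))
    · exact Or.inr (Or.inr (Or.inr (inE_of_in16 P h)))

/-- The criterion for `11`. -/
theorem e16_eleven (h11 : T.S_E11) (P : Set (Fin 3 → ℝ)) (hP : IsIntegerPolytope P)
    (nm : ¬ LC.Miss2 P) (hC : Criterion P 11) :
    Criterion P 3 ∨ Criterion P 5 ∨ LC.InFam P ∨ InE P := by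
  have hlp := LC.q_T3lp P hP
  have hpc := LC.q_T3pc P nm
  have hcr := LC.q_T3crit P 11 hC
  by_cases hh : T.Hollow (LC.T3 P)
  · obtain ⟨C, s, t, r1, r2, r3, r4⟩ :=
      T.qH_TH (LC.T3 P) 11 hlp hpc hh (by norm_num) (by norm_num) hcr
    refine Or.inr (Or.inr (Or.inl ⟨C, s, t, r1, ?_, r3, LC.q_T3zeq P C s t r4⟩))
    have hC0 : C ≠ 0 := by
      rintro rfl
      simp at r1
    have h1 : ((11 : ℕ) : ℤ) ≤ |C| := Int.le_of_dvd (abs_pos.2 hC0) ((dvd_abs _ _).2 r2)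
    push_cast at h1
    linarith
  · rcases h11 (LC.T3 P) hlp hpc hh hcr with h | h | h
    · exact Or.inl (crit_of_T3 P 3 h)
    · exact Or.inr (Or.inl (crit_of_T3 P 5 h))
    · exact Or.inr (Or.inr (Or.inr (inE_of_in16 P h)))

/-- The three-dimensional faces of sails at integer distance greater than one, with an explicit
finite list. -/
theorem faces16 (h7 : T.S_E7) (h11 : T.S_E11) :
    ∀ P : Set (Fin 3 → ℝ), IsIntegerPolytope P → IsFullDimensional P →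
      ((∃ h : ℕ, 1 < h ∧ OccursAt P h) ↔
        (∃ c : Fin 3 → ℤ, ∀ x : Fin 3 → ℤ, (fun i => (x i : ℝ)) ∈ P →
          ¬ ∀ i, (2 : ℤ) ∣ x i - c i) ∨
        (∃ c : Fin 3 → ℤ, ∀ x : Fin 3 → ℤ, (fun i => (x i : ℝ)) ∈ (2 : ℝ) • P →
          ¬ ∀ i, (3 : ℤ) ∣ x i - c i) ∨
        (∃ o : Fin 3 → ℤ, ∀ x : Fin 3 → ℤ,
          ((fun i => (x i : ℝ)) ∈ (3 : ℝ) • P → ¬ ∀ i, (5 : ℤ) ∣ x i - 3 * o i) ∧
          ((fun i => (x i : ℝ)) ∈ (4 : ℝ) • P → ¬ ∀ i, (5 : ℤ) ∣ x i - 4 * o i)) ∨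
        (∃ c s t : ℤ, Odd c ∧ 3 ≤ |c| ∧ s ≤ t ∧
          IntegerEquivalent P (convexHull ℝ ({![0, 0, 0], ![0, 2, (c : ℝ)], ![1, 0, 0],
            ![1, 0, 1], ![1, 1, 0], ![1, 1, 1], ![0, 1, (s : ℝ)],
            ![0, 1, (t : ℝ)]} : Set (Fin 3 → ℝ)))) ∨
        (∃ b : ℤ, 1 ≤ b ∧ b ≤ 5 ∧
          IntegerEquivalent P (convexHull ℝ ({![0, 0, 0], ![1, 0, 0], ![0, 1, 0],
            ![5, 0, 1], ![6, 0, 1], ![0, 2, 3], ![(b : ℝ), 1, 1]} : Set (Fin 3 → ℝ)))) ∨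
        (∃ a b : ℤ, -2 ≤ a ∧ a ≤ 1 ∧ 1 ≤ b ∧ b ≤ 3 ∧ a + 3 ≤ 2 * b ∧
          IntegerEquivalent P (convexHull ℝ ({![0, 0, 0], ![1, 0, 0], ![0, 1, 0],
            ![5, 0, 1], ![6, 0, 1], ![1, 2, 3], ![(a : ℝ), 1, 1],
            ![(b : ℝ), 1, 1]} : Set (Fin 3 → ℝ)))) ∨
        IntegerEquivalent P (convexHull ℝ ({![0, 0, 0], ![1, 0, 0], ![0, 1, 0],
          ![5, 0, 1], ![6, 0, 1], ![2, 2, 2], ![3, 1, 2]} : Set (Fin 3 → ℝ)))) := by
  intro P hP hfull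
  have hmain := K.main13 P hP hfull
  have hocc7 : ∀ F : Set (Fin 3 → ℝ), IntegerEquivalent P F → Criterion F 7 →
      ∃ h : ℕ, 1 < h ∧ OccursAt P h := by
    intro F hF hc
    obtain ⟨g1, g2⟩ := LC.q_eqvip 3 P F hF
    exact ⟨7, by norm_num, LC.q_occ 3 P F 7 hF (hc.occursAt (by norm_num) (g1 hP) (g2 hfull))⟩
  constructor
  · intro hocc
    by_cases nm : LC.Miss2 P
    · exact Or.inl nm
    rcases hmain.1 hocc with ⟨q, hq, hq11, hC⟩ | hF
    · have h2 := hq.two_le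
      have h357 : Criterion P 3 ∨ Criterion P 5 ∨ LC.InFam P ∨ InE P := by
        interval_cases q
        · exact absurd (criterion_two_iff.1 hC) nm
        · exact Or.inl hC
        · exact absurd hq (by decide)
        · exact Or.inr (Or.inl hC)
        · exact absurd hq (by decide)
        · exact e16_seven h7 P hP nm hC
        · exact absurd hq (by decide)
        · exact absurd hq (by decide)
        · exact absurd hq (by decide)
        · exact e16_eleven h11 P hP nm hC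
      rcases h357 with h | h | h | h | h | h
      · exact Or.inr (Or.inl (criterion_three_iff.1 h))
      · exact Or.inr (Or.inr (Or.inl ((LC.q_five P).1 h)))
      · exact Or.inr (Or.inr (Or.inr (Or.inl h)))
      · exact Or.inr (Or.inr (Or.inr (Or.inr (Or.inl h))))
      · exact Or.inr (Or.inr (Or.inr (Or.inr (Or.inr (Or.inl h)))))
      · exact Or.inr (Or.inr (Or.inr (Or.inr (Or.inr (Or.inr h)))))
    · exact Or.inr (Or.inr (Or.inr (Or.inl hF)))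
  · rintro (h | h | h | h | ⟨b, h1, h2, h⟩ | ⟨a, b, h1, h2, h3, h4, _, h⟩ | h)
    · exact hmain.2 (Or.inl ⟨2, Nat.prime_two, by norm_num, criterion_two_iff.2 h⟩)
    · exact hmain.2 (Or.inl ⟨3, Nat.prime_three, by norm_num, criterion_three_iff.2 h⟩)
    · exact hmain.2 (Or.inl ⟨5, Nat.prime_five, by norm_num, (LC.q_five P).2 h⟩)
    · exact hmain.2 (Or.inr h)
    · exact hocc7 _ h (famA_crit b h1 h2)
    · exact hocc7 _ h (famB_crit a b h1 h2 h3 h4)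
    · exact hocc7 _ h famC_crit

end Pool.Agent.Lib.MP_0bc52e_nt
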