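import Pool.Agent.Lib.MP_0bc52e_nt.E16.Reg
import Pool.Agent.Lib.MP_0bc52e_nt.G.Fin

/-!
# Regions given by linear forms, and the classes for `p = 7` and `p = 11` (MP_0bc52e_nt)

`NG7`, `NG11` are the side conditions; `regF` is the leaf check for the three exceptional regions, in any frame.
-/

open scoped Pointwise

namespace Pool.Agent.Lib.MP_0bc52e_nt.G

open Pool.Agent.Lib.MP_0bc52e_nt.LC Pool.Agent.Lib.MP_0bc52e_nt.T Pool.Agent.Lib.MP_0bc52e_nt.R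
  Pool.Agent.Lib.MP_0bc52e_nt.K

/-- The side condition for `p = 7`. -/
def NG7 (Q : Set (ℝ × ℝ × ℝ)) : Prop := ¬ T.Hollow Q ∧ ¬ Cr Q 3 ∧ ¬ Cr Q 5 ∧ ¬ In16 Q

/-- The side condition for `p = 11`. -/
def NG11 (Q : Set (ℝ × ℝ × ℝ)) : Prop := ¬ T.Hollow Q ∧ ¬ Cr Q 3 ∧ ¬ Cr Q 5 ∧ ¬ Cr Q 7

private lemma back {f : ℝ × ℝ × ℝ → ℝ × ℝ × ℝ} (hf : IsFr f) (Q : Set (ℝ × ℝ × ℝ)) :
    (∀ q : ℕ, Cr (f ⁻¹' Q) q → Cr Q q) ∧ (T.Hollow (f ⁻¹' Q) → T.Hollow Q) ∧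
    (∀ V, ZEq (f ⁻¹' Q) (hull V) → ZEq Q (hull V)) := by
  obtain ⟨g, hg, hgf, hfg⟩ := T.p_fr1.1 f hf
  obtain ⟨-, -, -, -, -, -, f7⟩ := T.p_fr2 T.p_fr1 f hf Q
  have hQQ : g ⁻¹' (f ⁻¹' Q) = Q := by
    ext v
    show f (g v) ∈ Q ↔ v ∈ Q
    rw [hfg]
  obtain ⟨-, -, -, g4, -, g6, -⟩ := T.p_fr2 T.p_fr1 g hg (f ⁻¹' Q)
  rw [hQQ] at g4 g6
  exact ⟨g4, g6, fun V h => f7 _ h⟩

lemma in16_back {f : ℝ × ℝ × ℝ → ℝ × ℝ × ℝ} (hf : IsFr f) {Q : Set (ℝ × ℝ × ℝ)}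
    (h : In16 (f ⁻¹' Q)) : In16 Q := by
  obtain ⟨-, -, f7⟩ := back hf Q
  rcases h with ⟨b, h1, h2, h3⟩ | ⟨a, b, h1, h2, h3, h4, h5, h6⟩ | h
  · exact Or.inl ⟨b, h1, h2, f7 _ h3⟩
  · exact Or.inr (Or.inl ⟨a, b, h1, h2, h3, h4, h5, f7 _ h6⟩)
  · exact Or.inr (Or.inr (f7 _ h))

theorem fri7 : FrI NG7 := by
  rintro f hf Q ⟨h1, h2, h3, h4⟩
  obtain ⟨f4, f6, -⟩ := back hf Q
  exact ⟨fun h => h1 (f6 h), fun h => h2 (f4 3 h), fun h => h3 (f4 5 h), fun h => h4 (in16_back hf h)⟩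

theorem fri11 : FrI NG11 := by
  rintro f hf Q ⟨h1, h2, h3, h4⟩
  obtain ⟨f4, f6, -⟩ := back hf Q
  exact ⟨fun h => h1 (f6 h), fun h => h2 (f4 3 h), fun h => h3 (f4 5 h), fun h => h4 (f4 7 h)⟩

/-- The case `p = 7` from the certificates. -/
theorem e7_of (h : DeadG NG7 7) : S_E7 := by
  intro P hP hPC hH hC
  by_contra hcon
  push Not at hcon
  exact g_fin fri7 7 h P hP hPC hH ⟨hH, hcon.1, hcon.2.1, hcon.2.2⟩ hC

/-- The case `p = 11` from the certificates. -/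
theorem e11_of (h : DeadG NG7 11) : S_E11 := by
  intro P hP hPC hH hC
  by_contra hcon
  push Not at hcon
  exact g_fin fri7 11 h P hP hPC hH ⟨hH, hcon.1, hcon.2.1, hcon.2.2⟩ hC

/-- The facets of `A(5)`. -/
def HA : List F4 := [.mk 0 0 1 0, .mk 0 1 0 0, .mk 1 0 0 0, .mk 2 15 (-10) 0, .mk (-1) (-1) 5 1,
  .mk (-1) (-15) 5 15, .mk 0 1 (-1) 1, .mk (-1) (-1) (-2) 8]

/-- The facets of `B(-2, 3)`. -/
def HB : List F4 := [.mk 0 0 1 0, .mk 0 1 0 0, .mk 1 0 2 0, .mk 1 7 (-5) 0, .mk (-1) (-1) 5 1,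
  .mk (-1) (-3) 3 3, .mk 1 (-7) 2 7, .mk (-1) (-8) 3 8, .mk 0 1 (-1) 1, .mk (-2) (-6) 1 11]

/-- The facets of the last one. -/
def HC : List F4 := [.mk 0 0 1 0, .mk 0 1 0 0, .mk 1 0 (-1) 0, .mk 1 7 (-5) 0, .mk 1 1 (-2) 0,
  .mk (-1) (-1) 5 1, .mk (-3) (-10) 8 10, .mk 0 1 (-1) 1, .mk (-1) (-1) (-2) 8]

/-- The three regions. -/
def HE : Fin 3 → List F4
  | 0 => HA
  | 1 => HB
  | 2 => HC

private lemma ev4 (a b c d x y z N : ℤ) : (F4.mk a b c d).ev (x, y, z) N = a * x + b * y + c * z + d * N := rfl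

/-- The check for one list. -/
private noncomputable def ckE (H : List F4) (L : List (ℤ × ℤ × ℤ)) : Bool :=
  (List.range 11).all fun x => (List.range 4).all fun y => (List.range 5).all fun z =>
    !(H.all fun f => decide (0 ≤ f.ev ((x : ℤ) - 2, (y : ℤ), (z : ℤ)) 1)) ||
      decide (((x : ℤ) - 2, (y : ℤ), (z : ℤ)) ∈ L)

private lemma ckE_sound {H : List F4} {L : List (ℤ × ℤ × ℤ)} (h : ckE H L = true) (x : ℤ × ℤ × ℤ)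
    (h1 : -2 ≤ x.1 ∧ x.1 ≤ 8) (h2 : 0 ≤ x.2.1 ∧ x.2.1 ≤ 3) (h3 : 0 ≤ x.2.2 ∧ x.2.2 ≤ 4)
    (hx : ∀ f ∈ H, 0 ≤ f.ev x 1) : x ∈ L := by
  unfold ckE at h
  rw [List.all_eq_true] at h
  have a1 := h (x.1 + 2).toNat (List.mem_range.2 (by omega))
  rw [List.all_eq_true] at a1
  have a2 := a1 x.2.1.toNat (List.mem_range.2 (by omega))
  rw [List.all_eq_true] at a2
  have a3 := a2 x.2.2.toNat (List.mem_range.2 (by omega))
  have e1 : (((x.1 + 2).toNat : ℕ) : ℤ) = x.1 + 2 := Int.toNat_of_nonneg (by omega)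
  have e2 : ((x.2.1.toNat : ℕ) : ℤ) = x.2.1 := Int.toNat_of_nonneg (by omega)
  have e3 : ((x.2.2.toNat : ℕ) : ℤ) = x.2.2 := Int.toNat_of_nonneg (by omega)
  rw [e1, e2, e3, add_sub_cancel_right] at a3
  have e4 : (x.1, x.2.1, x.2.2) = x := rfl
  rw [e4] at a3
  rw [Bool.or_eq_true, Bool.not_eq_true', decide_eq_true_eq] at a3
  rcases a3 with a3 | a3
  · exfalso
    have : (H.all fun f => decide (0 ≤ f.ev x 1)) = true := by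
      rw [List.all_eq_true]
      intro f hf
      rw [decide_eq_true_eq]
      exact hx f hf
    rw [this] at a3
    exact absurd a3 (by simp)
  · exact a3

private lemma memA (x : ℤ × ℤ × ℤ) (h : ∀ f ∈ HA, 0 ≤ f.ev x 1) : x ∈ lA := by
  have h' := h
  obtain ⟨x, y, z⟩ := x
  simp only [HA, List.mem_cons, List.not_mem_nil, or_false, forall_eq_or_imp, forall_eq, ev4] at h'
  obtain ⟨h1, h2, h3, h4, h5, h6, h7, h8⟩ := h'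
  refine ckE_sound (H := HA) (L := lA) (by decide +kernel) _ ⟨?_, ?_⟩ ⟨?_, ?_⟩ ⟨?_, ?_⟩ h <;>
    dsimp only <;> omega

private lemma memB (x : ℤ × ℤ × ℤ) (h : ∀ f ∈ HB, 0 ≤ f.ev x 1) : x ∈ lB := by
  have h' := h
  obtain ⟨x, y, z⟩ := x
  simp only [HB, List.mem_cons, List.not_mem_nil, or_false, forall_eq_or_imp, forall_eq, ev4] at h'
  obtain ⟨h1, h2, h3, h4, h5, h6, h7, h8, h9, h10⟩ := h'
  have hy2 : y ≤ 2 := by omega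
  have hz3 : z ≤ 3 := by omega
  refine ckE_sound (H := HB) (L := lB) (by decide +kernel) _ ⟨?_, ?_⟩ ⟨?_, ?_⟩ ⟨?_, ?_⟩ h <;>
    dsimp only
  · by_contra hc
    have hz : 2 ≤ z := by omega
    have hy : 1 ≤ y := by omega
    clear h1 h2 h5 h6 h8 h10
    have : y = 1 ∨ y = 2 := by omega
    rcases this with rfl | rfl <;> omega
  · omega
  · omega
  · omega
  · omega
  · omega

private lemma memC (x : ℤ × ℤ × ℤ) (h : ∀ f ∈ HC, 0 ≤ f.ev x 1) : x ∈ lC := by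
  have h' := h
  obtain ⟨x, y, z⟩ := x
  simp only [HC, List.mem_cons, List.not_mem_nil, or_false, forall_eq_or_imp, forall_eq, ev4] at h'
  obtain ⟨h1, h2, h3, h4, h5, h6, h7, h8, h9⟩ := h'
  refine ckE_sound (H := HC) (L := lC) (by decide +kernel) _ ⟨?_, ?_⟩ ⟨?_, ?_⟩ ⟨?_, ?_⟩ h <;>
    dsimp only <;> omega

/-- The determinant of a matrix. -/
noncomputable def detM (M : M3) : ℤ :=
  M3.rec (fun a1 a2 a3 b1 b2 b3 c1 c2 c3 =>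
    a1 * (b2 * c3 - b3 * c2) - a2 * (b1 * c3 - b3 * c1) + a3 * (b1 * c2 - b2 * c1)) M

private lemma frM (M : M3) (t : ℤ × ℤ × ℤ) (hM : detM M = 1 ∨ detM M = -1) :
    ∃ f, IsFr f ∧ ∀ x : ℤ × ℤ × ℤ,
      f (ip x) = ip ((M.ap x).1 + t.1, (M.ap x).2.1 + t.2.1, (M.ap x).2.2 + t.2.2) := by
  obtain ⟨x1, x2, x3, y1, y2, y3, z1, z2, z3⟩ := M
  refine ⟨fr t (x1, y1, z1) (x2, y2, z2) (x3, y3, z3),
    ⟨t, (x1, y1, z1), (x2, y2, z2), (x3, y3, z3), ?_, fun _ => rfl⟩, ?_⟩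
  · unfold det3
    simp only
    rcases hM with hd | hd
    · left
      rw [← hd]
      unfold detM
      ring
    · right
      rw [← hd]
      unfold detM
      ring
  · intro v
    unfold fr ip
    refine Prod.ext ?_ (Prod.ext ?_ ?_)
    · show (((t.1 : ℤ) : ℝ) + (v.1 : ℝ) * (x1 : ℝ) + (v.2.1 : ℝ) * (x2 : ℝ) + (v.2.2 : ℝ) * (x3 : ℝ)) =
        ((x1 * v.1 + x2 * v.2.1 + x3 * v.2.2 + t.1 : ℤ) : ℝ)
      push_cast
      ring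
    · show (((t.2.1 : ℤ) : ℝ) + (v.1 : ℝ) * (y1 : ℝ) + (v.2.1 : ℝ) * (y2 : ℝ) + (v.2.2 : ℝ) * (y3 : ℝ)) =
        ((y1 * v.1 + y2 * v.2.1 + y3 * v.2.2 + t.2.1 : ℤ) : ℝ)
      push_cast
      ring
    · show (((t.2.2 : ℤ) : ℝ) + (v.1 : ℝ) * (z1 : ℝ) + (v.2.1 : ℝ) * (z2 : ℝ) + (v.2.2 : ℝ) * (z3 : ℝ)) =
        ((z1 * v.1 + z2 * v.2.1 + z3 * v.2.2 + t.2.2 : ℤ) : ℝ)
      push_cast
      ring

/-- A polytope whose integer points are in one of the three regions, in some frame. -/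
theorem regF (k : Fin 3) (M : M3) (t : ℤ × ℤ × ℤ) (hM : detM M = 1 ∨ detM M = -1)
    {P : Set (ℝ × ℝ × ℝ)} (hP : IsLP3 P) (hpc : PC3 P) (hH : ¬ T.Hollow P)
    (h : ∀ x : ℤ × ℤ × ℤ, ip x ∈ P → ∀ f ∈ HE k,
      0 ≤ f.ev ((M.ap x).1 + t.1, (M.ap x).2.1 + t.2.1, (M.ap x).2.2 + t.2.2) 1) :
    Cr P 3 ∨ Cr P 5 ∨ In16 P := by
  obtain ⟨F, hF, hFx⟩ := frM M t hM
  obtain ⟨g, hg, hgf, hfg⟩ := T.p_fr1.1 F hF
  refine reg16 T.p_fr1 (T.p_fr2 T.p_fr1) hP hpc hH g hg k ?_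
  intro x hx
  refine ⟨((M.ap x).1 + t.1, (M.ap x).2.1 + t.2.1, (M.ap x).2.2 + t.2.2), ?_, ?_⟩
  · have := h x hx
    fin_cases k
    · exact memA _ this
    · exact memB _ this
    · exact memC _ this
  · rw [← hFx, hgf]

end Pool.Agent.Lib.MP_0bc52e_nt.G
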