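import Pool.Agent.Lib.MP_0bc52e_nt.E16.Final
import Pool.Agent.Lib.MP_0bc52e_nt.N7.Asm

/-!
# The final theorem from the certificates for `p = 7` and `p = 11`
-/

open scoped Pointwise

namespace Pool.Agent.Lib.MP_0bc52e_nt

/-- The three-dimensional faces of sails at integer distance greater than one, with an explicit finite list. -/
theorem faces16_of_dead (h7 : G.DeadG G.NG7 7) (h11 : G.DeadG G.NG7 11) :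
    ∀ P : Set (Fin 3 → ℝ), IsIntegerPolytope P → IsFullDimensional P →
      ((∃ h : ℕ, 1 < h ∧ OccursAt P h) ↔
        (∃ c : Fin 3 → ℤ, ∀ x : Fin 3 → ℤ, (fun i => (x i : ℝ)) ∈ P →
          ¬ ∀ i, (2 : ℤ) ∣ x i - c i) ∨
        (∃ c : Fin 3 → ℤ, ∀ x : Fin 3 → ℤ, (fun i => (x i : ℝ)) ∈ (2 : ℝ) • P →
          ¬ ∀ i, (3 : ℤ) ∣ x i - c i) ∨
        (∃ o : Fin 3 → ℤ, ∀ x : Fin 3 → ℤ,
          ((fun i => (x i : ℝ)) ∈ (3 : ℝ) • P → ¬ ∀ i, (5 : ℤ) ∣ x i - 3 * o i) ∧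
          ((fun i => (x i : ℝ)) ∈ (4 : ℝ) • P → ¬ ∀ i, (5 : ℤ) ∣ x i - 4 * o i)) ∨
        (∃ c s t : ℤ, Odd c ∧ 3 ≤ |c| ∧ s ≤ t ∧
          IntegerEquivalent P (convexHull ℝ ({![0, 0, 0], ![0, 2, (c : ℝ)], ![1, 0, 0],
            ![1, 0, 1], ![1, 1, 0], ![1, 1, 1], ![0, 1, (s : ℝ)],
            ![0, 1, (t : ℝ)]} : Set (Fin 3 → ℝ)))) ∨
        (∃ b : ℤ, 1 ≤ b ∧ b ≤ 5 ∧
          IntegerEquivalent P (convexHull ℝ ({![0, 0, 0], ![1, 0, 0], ![0, 1, 0],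
            ![5, 0, 1], ![6, 0, 1], ![0, 2, 3], ![(b : ℝ), 1, 1]} : Set (Fin 3 → ℝ)))) ∨
        (∃ a b : ℤ, -2 ≤ a ∧ a ≤ 1 ∧ 1 ≤ b ∧ b ≤ 3 ∧ a + 3 ≤ 2 * b ∧
          IntegerEquivalent P (convexHull ℝ ({![0, 0, 0], ![1, 0, 0], ![0, 1, 0],
            ![5, 0, 1], ![6, 0, 1], ![1, 2, 3], ![(a : ℝ), 1, 1],
            ![(b : ℝ), 1, 1]} : Set (Fin 3 → ℝ)))) ∨
        IntegerEquivalent P (convexHull ℝ ({![0, 0, 0], ![1, 0, 0], ![0, 1, 0],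
          ![5, 0, 1], ![6, 0, 1], ![2, 2, 2], ![3, 1, 2]} : Set (Fin 3 → ℝ)))) :=
  faces16 (G.e7_of h7) (G.e11_of h11)

end Pool.Agent.Lib.MP_0bc52e_nt
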