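import Pool.Agent.Lib.MP_0bc52e_nt.E16.Defs
import Pool.Agent.Lib.MP_0bc52e_nt.T.StmN

/-!
# Leaf checks (MP_0bc52e_nt)

`ckC_sound`: an integer polytope whose integer points satisfy a list of linear inequalities has the criterion for `q`,
if a Boolean check says so. `ckR_sound` is the same for a list that contains all integer points of the polytope.
-/

open scoped Pointwise

namespace Pool.Agent.Lib.MP_0bc52e_nt.T

open Pool.Agent.Lib.MP_0bc52e_nt.LC

/-- The point `x` satisfies the inequalities `a x + b y + c z ≤ j d`. -/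
def inHs (H : List (ℤ × ℤ × ℤ × ℤ)) (j : ℤ) (x y z : ℤ) : Bool :=
  H.all fun t => decide (t.1 * x + t.2.1 * y + t.2.2.1 * z ≤ j * t.2.2.2)

/-- The integers in `[lo, hi]` congruent to `r` modulo `q` (and perhaps a few larger ones). -/
def rng (q r lo hi : ℤ) : List ℤ :=
  (List.range ((hi - lo) / q + 1).toNat).map fun k : ℕ => lo + (r - lo) % q + q * (k : ℤ)

lemma mem_rng {q r lo hi x : ℤ} (hq : 0 < q) (h1 : lo ≤ x) (h2 : x ≤ hi) (h3 : q ∣ x - r) :
    x ∈ rng q r lo hi := by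
  unfold rng
  rw [List.mem_map]
  have e1 : (r - lo) % q = (x - lo) % q := by
    have : x - lo = (r - lo) + (x - r) := by ring
    rw [this]
    obtain ⟨k, hk⟩ := h3
    rw [hk, Int.add_mul_emod_self_left]
  have h4 : 0 ≤ (x - lo) / q := Int.ediv_nonneg (by omega) hq.le
  have h5 : (x - lo) / q ≤ (hi - lo) / q := Int.ediv_le_ediv hq (by omega)
  refine ⟨((x - lo) / q).toNat, ?_, ?_⟩
  · rw [List.mem_range]
    omega
  · have h6 : (((x - lo) / q).toNat : ℤ) = (x - lo) / q := Int.toNat_of_nonneg h4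
    rw [h6, e1]
    have := Int.emod_add_mul_ediv (x - lo) q
    linarith

/-- No integer point of the dilates `j`, `0 < j < q`, of the region in the box `[lo, hi]` is congruent to `j o`. -/
def ckC (q : ℕ) (o lo hi : ℤ × ℤ × ℤ) (H : List (ℤ × ℤ × ℤ × ℤ)) : Bool :=
  (List.range q).all fun j => j == 0 ||
    (rng q (j * o.2.2) (j * lo.2.2) (j * hi.2.2)).all fun z =>
      (rng q (j * o.2.1) (j * lo.2.1) (j * hi.2.1)).all fun y =>
        (rng q (j * o.1) (j * lo.1) (j * hi.1)).all fun x => !inHs H j x y z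

/-- Integer linear inequalities pass to an integer polytope. -/
lemma lp_ineq {P : Set (ℝ × ℝ × ℝ)} (hP : IsLP3 P) {a b c d : ℤ}
    (h : ∀ x : ℤ × ℤ × ℤ, ip x ∈ P → a * x.1 + b * x.2.1 + c * x.2.2 ≤ d) (v : ℝ × ℝ × ℝ)
    (hv : v ∈ P) : (a : ℝ) * v.1 + b * v.2.1 + c * v.2.2 ≤ d := by
  obtain ⟨V, hV⟩ := hP
  have hconv : Convex ℝ {v : ℝ × ℝ × ℝ | (a : ℝ) * v.1 + b * v.2.1 + c * v.2.2 ≤ d} := by
    intro v hv w hw s t hs ht hst
    have h1 := mul_le_mul_of_nonneg_left hv hs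
    have h2 := mul_le_mul_of_nonneg_left hw ht
    simp only [Set.mem_ofPred_eq, Prod.fst_add, Prod.snd_add, Prod.smul_fst, Prod.smul_snd,
      smul_eq_mul]
    have h3 : (d : ℝ) = s * d + t * d := by rw [← add_mul, hst, one_mul]
    rw [h3]
    linarith
  have hsub : P ⊆ {v : ℝ × ℝ × ℝ | (a : ℝ) * v.1 + b * v.2.1 + c * v.2.2 ≤ d} := by
    conv_lhs => rw [hV]
    refine convexHull_min ?_ hconv
    rintro _ ⟨w, hw, rfl⟩
    have hwP : ip w ∈ P := by
      rw [hV]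
      exact subset_convexHull ℝ _ ⟨w, hw, rfl⟩
    have := h w hwP
    show (a : ℝ) * w.1 + b * w.2.1 + c * w.2.2 ≤ d
    exact_mod_cast this
  exact hsub hv

theorem ckC_sound {q : ℕ} {o lo hi : ℤ × ℤ × ℤ} {H : List (ℤ × ℤ × ℤ × ℤ)}
    (hc : ckC q o lo hi H = true) {P : Set (ℝ × ℝ × ℝ)} (hP : IsLP3 P)
    (hL : ∀ x : ℤ × ℤ × ℤ, ip x ∈ P → inHs H 1 x.1 x.2.1 x.2.2 = true ∧
      (lo.1 ≤ x.1 ∧ x.1 ≤ hi.1) ∧ (lo.2.1 ≤ x.2.1 ∧ x.2.1 ≤ hi.2.1) ∧
      (lo.2.2 ≤ x.2.2 ∧ x.2.2 ≤ hi.2.2)) : Cr P q := by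
  refine ⟨o.1, o.2.1, o.2.2, ?_⟩
  intro j hj hjq x y z u v w hP' hx hy hz hd1 hd2 hd3
  have hjR : (0 : ℝ) < j := by exact_mod_cast hj
  -- an inequality for the integer points gives one for `(x, y, z)`
  have key : ∀ a b c d : ℤ, (∀ x : ℤ × ℤ × ℤ, ip x ∈ P → a * x.1 + b * x.2.1 + c * x.2.2 ≤ d) →
      a * x + b * y + c * z ≤ j * d := by
    intro a b c d h
    have h1 := lp_ineq hP h _ hP'
    have h2 := mul_le_mul_of_nonneg_left h1 hjR.le
    have h3 : (a : ℝ) * x + b * y + c * z ≤ j * d := by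
      rw [hx, hy, hz]
      calc (a : ℝ) * (j * u) + b * (j * v) + c * (j * w) = j * (a * u + b * v + c * w) := by ring
        _ ≤ j * d := h2
    exact_mod_cast h3
  have b1 := key (-1) 0 0 (-lo.1) (fun x hx => by linarith [(hL x hx).2.1.1])
  have b2 := key 1 0 0 hi.1 (fun x hx => by linarith [(hL x hx).2.1.2])
  have b3 := key 0 (-1) 0 (-lo.2.1) (fun x hx => by linarith [(hL x hx).2.2.1.1])
  have b4 := key 0 1 0 hi.2.1 (fun x hx => by linarith [(hL x hx).2.2.1.2])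
  have b5 := key 0 0 (-1) (-lo.2.2) (fun x hx => by linarith [(hL x hx).2.2.2.1])
  have b6 := key 0 0 1 hi.2.2 (fun x hx => by linarith [(hL x hx).2.2.2.2])
  have hqZ : (0 : ℤ) < q := by
    have : 0 < q := by omega
    exact_mod_cast this
  unfold ckC at hc
  have h1 := List.all_eq_true.1 hc j (List.mem_range.2 hjq)
  rw [Bool.or_eq_true, beq_iff_eq] at h1
  rcases h1 with h1 | h1
  · omega
  have h2 := List.all_eq_true.1 h1 z (mem_rng hqZ (by linarith) (by linarith) hd3)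
  have h3 := List.all_eq_true.1 h2 y (mem_rng hqZ (by linarith) (by linarith) hd2)
  have h4 := List.all_eq_true.1 h3 x (mem_rng hqZ (by linarith) (by linarith) hd1)
  have h5 : inHs H j x y z = true := by
    unfold inHs
    rw [List.all_eq_true]
    intro t ht
    rw [decide_eq_true_eq]
    refine key t.1 t.2.1 t.2.2.1 t.2.2.2 ?_
    intro x' hx'
    have h6 := (hL x' hx').1
    unfold inHs at h6
    have h7 := List.all_eq_true.1 h6 t ht
    rw [decide_eq_true_eq, one_mul] at h7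
    exact h7
  rw [h5] at h4
  exact absurd h4 (by decide)

/-- The same for a list of integer points. -/
def ckR (q : ℕ) (o lo hi : ℤ × ℤ × ℤ) (H : List (ℤ × ℤ × ℤ × ℤ)) (L : List (ℤ × ℤ × ℤ)) : Bool :=
  ckC q o lo hi H && L.all fun x => inHs H 1 x.1 x.2.1 x.2.2 &&
    decide ((lo.1 ≤ x.1 ∧ x.1 ≤ hi.1) ∧ (lo.2.1 ≤ x.2.1 ∧ x.2.1 ≤ hi.2.1) ∧
      (lo.2.2 ≤ x.2.2 ∧ x.2.2 ≤ hi.2.2))

theorem ckR_sound {q : ℕ} {o lo hi : ℤ × ℤ × ℤ} {H : List (ℤ × ℤ × ℤ × ℤ)} {L : List (ℤ × ℤ × ℤ)}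
    (hc : ckR q o lo hi H L = true) {P : Set (ℝ × ℝ × ℝ)} (hP : IsLP3 P)
    (hL : ∀ x : ℤ × ℤ × ℤ, ip x ∈ P → x ∈ L) : Cr P q := by
  unfold ckR at hc
  rw [Bool.and_eq_true] at hc
  refine ckC_sound hc.1 hP ?_
  intro x hx
  have h1 := List.all_eq_true.1 hc.2 x (hL x hx)
  rw [Bool.and_eq_true, decide_eq_true_eq] at h1
  exact h1

/-- A weighted mean of four integer points. -/
lemma comb4 {P : Set (ℝ × ℝ × ℝ)} (hP : Convex ℝ P) (a b c d x : ℤ × ℤ × ℤ) (p q r s : ℕ)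
    (hN : 0 < p + q + r + s) (ha : ip a ∈ P) (hb : ip b ∈ P) (hc : ip c ∈ P) (hd : ip d ∈ P)
    (h1 : ((p + q + r + s : ℕ) : ℤ) * x.1 = p * a.1 + q * b.1 + r * c.1 + s * d.1)
    (h2 : ((p + q + r + s : ℕ) : ℤ) * x.2.1 = p * a.2.1 + q * b.2.1 + r * c.2.1 + s * d.2.1)
    (h3 : ((p + q + r + s : ℕ) : ℤ) * x.2.2 = p * a.2.2 + q * b.2.2 + r * c.2.2 + s * d.2.2) :
    ip x ∈ P := by
  have hNR : (0 : ℝ) < ((p + q + r + s : ℕ) : ℝ) := by exact_mod_cast hN
  set N : ℝ := ((p + q + r + s : ℕ) : ℝ) with hNdef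
  have hsum : (p : ℝ) + q + r + s = N := by
    rw [hNdef]
    push_cast
    ring
  have h := hP.sum_mem (t := (Finset.univ : Finset (Fin 4)))
    (w := ![(p : ℝ) / N, (q : ℝ) / N, (r : ℝ) / N, (s : ℝ) / N]) (z := ![ip a, ip b, ip c, ip d])
    (by intro i _; fin_cases i <;> simp <;> positivity)
    (by
      rw [Fin.sum_univ_four]
      simp only [Matrix.cons_val_zero, Matrix.cons_val_one, Matrix.cons_val]
      rw [← hsum] at hNR ⊢
      field_simp)
    (by intro i _; fin_cases i <;> simpa)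
  rw [Fin.sum_univ_four] at h
  simp only [Matrix.cons_val_zero, Matrix.cons_val_one, Matrix.cons_val] at h
  have h1R : N * (x.1 : ℝ) = p * a.1 + q * b.1 + r * c.1 + s * d.1 := by
    rw [hNdef]
    exact_mod_cast h1
  have h2R : N * (x.2.1 : ℝ) = p * a.2.1 + q * b.2.1 + r * c.2.1 + s * d.2.1 := by
    rw [hNdef]
    exact_mod_cast h2
  have h3R : N * (x.2.2 : ℝ) = p * a.2.2 + q * b.2.2 + r * c.2.2 + s * d.2.2 := by
    rw [hNdef]
    exact_mod_cast h3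
  convert h using 1
  simp only [ip, Prod.smul_mk, Prod.mk_add_mk, smul_eq_mul, Prod.mk.injEq]
  refine ⟨?_, ?_, ?_⟩
  · field_simp
    linarith
  · field_simp
    linarith
  · field_simp
    linarith

/-- A polytope between two consecutive planes is hollow. -/
lemma hollow_strip {P : Set (ℝ × ℝ × ℝ)} (hP : IsLP3 P)
    (h : ∀ x : ℤ × ℤ × ℤ, ip x ∈ P → 0 ≤ x.2.1 ∧ x.2.1 ≤ 1) : Hollow P := by
  intro v hv
  have k1 := lp_ineq (a := 0) (b := -1) (c := 0) (d := 0) hP (fun x hx => by linarith [(h x hx).1])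
  have k2 := lp_ineq (a := 0) (b := 1) (c := 0) (d := 1) hP (fun x hx => by linarith [(h x hx).2])
  obtain ⟨ε, hε, h1⟩ := hv (0, 1, 0)
  obtain ⟨ε', hε', h2⟩ := hv (0, -1, 0)
  have e1 := k2 _ h1
  have e2 := k1 _ h2
  simp only [ip, Prod.smul_mk, Prod.mk_add_mk, smul_eq_mul] at e1 e2
  push_cast at e1 e2
  have f1 : (v.2.1 : ℝ) < 1 := by linarith
  have f2 : (0 : ℝ) < v.2.1 := by linarith
  have f3 : v.2.1 < 1 := by exact_mod_cast f1
  have f4 : 0 < v.2.1 := by exact_mod_cast f2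
  omega

/-- Integer polytopes with the same integer points are equal; here in the form that is used. -/
lemma lp_eq_hull {P : Set (ℝ × ℝ × ℝ)} (hP : IsLP3 P) (V : Finset (ℤ × ℤ × ℤ))
    (h1 : ∀ v ∈ V, ip v ∈ P) (h2 : ∀ x : ℤ × ℤ × ℤ, ip x ∈ P → ip x ∈ hull V) : P = hull V := by
  have hPc : Convex ℝ P := by
    obtain ⟨W, hW⟩ := hP
    rw [hW]
    exact convex_convexHull ℝ _
  apply Set.Subset.antisymm
  · obtain ⟨W, hW⟩ := hP
    conv_lhs => rw [hW]
    refine convexHull_min ?_ (convex_convexHull ℝ _)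
    rintro _ ⟨w, hw, rfl⟩
    apply h2
    rw [hW]
    exact subset_convexHull ℝ _ ⟨w, hw, rfl⟩
  · refine convexHull_min ?_ hPc
    rintro _ ⟨v, hv, rfl⟩
    exact h1 v hv

lemma zeq_refl (P : Set (ℝ × ℝ × ℝ)) : ZEq P P :=
  ⟨AffineEquiv.refl ℝ _, fun v => Iff.rfl, by simp⟩

end Pool.Agent.Lib.MP_0bc52e_nt.T
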