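import Pool.Agent.Lib.MP_0bc52e_nt.E16.Leaf
import Pool.Agent.Lib.MP_0bc52e_nt.T.P.fr1
import Pool.Agent.Lib.MP_0bc52e_nt.T.P.fr2

/-!
# Polytopes inside the three maximal exceptional polytopes (MP_0bc52e_nt)
-/

open scoped Pointwise

namespace Pool.Agent.Lib.MP_0bc52e_nt.T

open Pool.Agent.Lib.MP_0bc52e_nt.LC

/-- The integer points of `A(5)`. -/
def lA : List (ℤ × ℤ × ℤ) := [(0, 0, 0), (1, 0, 0), (0, 1, 0), (5, 0, 1), (6, 0, 1), (0, 2, 3), (3, 1, 2), (0, 1, 1),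
  (1, 1, 1), (2, 1, 1), (3, 1, 1), (4, 1, 1), (5, 1, 1)]

/-- The integer points of `B(-2, 3)`. -/
def lB : List (ℤ × ℤ × ℤ) := [(0, 0, 0), (1, 0, 0), (0, 1, 0), (5, 0, 1), (6, 0, 1), (1, 2, 3), (3, 1, 2), (-2, 1, 1),
  (-1, 1, 1), (0, 1, 1), (1, 1, 1), (2, 1, 1), (3, 1, 1)]

/-- The integer points of the last polytope. -/
def lC : List (ℤ × ℤ × ℤ) := [(0, 0, 0), (1, 0, 0), (0, 1, 0), (5, 0, 1), (6, 0, 1), (2, 2, 2), (3, 1, 2), (1, 1, 1),
  (2, 1, 1)]

private lemma row {Q : Set (ℝ × ℝ × ℝ)} (hQ : Convex ℝ Q) {a b k : ℤ} (ha : ip (a, 1, 1) ∈ Q)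
    (hb : ip (b, 1, 1) ∈ Q) (h1 : a ≤ k) (h2 : k ≤ b) : ip (k, 1, 1) ∈ Q := by
  by_cases hab : a = b
  · have : k = a := by omega
    rw [this]
    exact ha
  · have e1 : (((b - k).toNat : ℕ) : ℤ) = b - k := Int.toNat_of_nonneg (by omega)
    have e2 : (((k - a).toNat : ℕ) : ℤ) = k - a := Int.toNat_of_nonneg (by omega)
    refine comb4 hQ (a, 1, 1) (b, 1, 1) (b, 1, 1) (b, 1, 1) (k, 1, 1) (b - k).toNat (k - a).toNat 0 0
      (by omega) ha hb hb hb ?_ ?_ ?_
    · push_cast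
      rw [e1, e2]
      ring
    · push_cast
      rw [e1, e2]
      ring
    · push_cast
      rw [e1, e2]
      ring

private lemma cvx {P : Set (ℝ × ℝ × ℝ)} (hP : IsLP3 P) : Convex ℝ P := by
  obtain ⟨W, hW⟩ := hP
  rw [hW]
  exact convex_convexHull ℝ _

private lemma hullmem {V : Finset (ℤ × ℤ × ℤ)} {v : ℤ × ℤ × ℤ} (h : v ∈ V) : ip v ∈ hull V :=
  subset_convexHull ℝ _ ⟨v, h, rfl⟩

private lemma chkA : ckR 3 (1, 0, 1) (0, 0, 0) (6, 2, 3)
    [(-2, -15, 10, 0), (-1, 0, 0, 0), (0, -1, 0, 0), (0, -1, 1, 1), (0, 0, -1, 0), (1, 0, -4, 1),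
      (1, 0, 2, 7), (1, 1, -5, 1), (1, 1, 2, 8), (1, 15, -5, 15)]
    [(0, 0, 0), (1, 0, 0), (0, 1, 0), (5, 0, 1), (0, 2, 3), (3, 1, 2), (0, 1, 1),
      (1, 1, 1), (2, 1, 1), (3, 1, 1), (4, 1, 1), (5, 1, 1)] = true := by decide +kernel

private lemma chkB : ckR 3 (1, 0, 1) (-2, 0, 0) (6, 2, 3)
    [(-1, -9, 6, 0), (-1, -7, 5, 0), (-1, 0, -2, 0), (-1, 7, -2, 7), (0, -1, 0, 0), (0, -1, 1, 1),
      (0, 0, -1, 0), (1, 1, -5, 1), (1, 3, -3, 3), (1, 8, -3, 8), (2, 6, -1, 11)]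
    [(0, 0, 0), (1, 0, 0), (0, 1, 0), (6, 0, 1), (1, 2, 3), (3, 1, 2), (-2, 1, 1),
      (-1, 1, 1), (0, 1, 1), (1, 1, 1), (2, 1, 1), (3, 1, 1)] = true := by decide +kernel

private lemma chkB01 : ckR 3 (1, 1, 2) (0, 0, 0) (6, 2, 3)
    [(-1, -7, 5, 0), (-1, -1, 1, 0), (-1, 0, 0, 0), (-1, 1, 0, 1), (0, -1, 0, 0), (0, -1, 1, 1),
      (0, 0, -1, 0), (1, 1, -5, 1), (4, 17, -7, 17)]
    [(0, 0, 0), (1, 0, 0), (0, 1, 0), (5, 0, 1), (6, 0, 1), (1, 2, 3), (3, 1, 2), (0, 1, 1),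
      (1, 1, 1)] = true := by decide +kernel

private lemma chkC : ckR 5 (0, 0, 2) (0, 0, 0) (6, 2, 2)
    [(-1, -6, 4, -1), (-1, -2, 2, -1), (-1, -1, 1, -1), (-1, -1, 2, 0), (-1, 0, 1, 0),
      (0, -1, 0, 0), (0, -1, 1, 1), (1, 1, -5, 1), (1, 1, 2, 8), (3, 10, -8, 10)]
    [(1, 0, 0), (0, 1, 0), (5, 0, 1), (6, 0, 1), (2, 2, 2), (3, 1, 2), (1, 1, 1),
      (2, 1, 1)] = true := by decide +kernel

/-- The polytopes `A(b)`. -/
private lemma isA {P : Set (ℝ × ℝ × ℝ)} (hP : IsLP3 P) (hL : ∀ x : ℤ × ℤ × ℤ, ip x ∈ P → x ∈ lA)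
    (h0 : ip (0, 0, 0) ∈ P) (h1 : ip (1, 0, 0) ∈ P) (h2 : ip (0, 1, 0) ∈ P) (h3 : ip (5, 0, 1) ∈ P)
    (h4 : ip (6, 0, 1) ∈ P) (h5 : ip (0, 2, 3) ∈ P) (b : ℤ) (hb1 : 1 ≤ b) (hb5 : b ≤ 5)
    (hb : ip (b, 1, 1) ∈ P) (hmax : ∀ k : ℤ, ip (k, 1, 1) ∈ P → k ≤ b) : In16 P := by
  refine Or.inl ⟨b, hb1, hb5, ?_⟩
  have hc : Convex ℝ (hull (eA b)) := convex_convexHull ℝ _
  have g0 : ip (0, 0, 0) ∈ hull (eA b) := hullmem (by simp [eA])
  have g1 : ip (1, 0, 0) ∈ hull (eA b) := hullmem (by simp [eA])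
  have g2 : ip (0, 1, 0) ∈ hull (eA b) := hullmem (by simp [eA])
  have g3 : ip (5, 0, 1) ∈ hull (eA b) := hullmem (by simp [eA])
  have g4 : ip (6, 0, 1) ∈ hull (eA b) := hullmem (by simp [eA])
  have g5 : ip (0, 2, 3) ∈ hull (eA b) := hullmem (by simp [eA])
  have g6 : ip (b, 1, 1) ∈ hull (eA b) := hullmem (by simp [eA])
  have g7 : ip (0, 1, 1) ∈ hull (eA b) :=
    comb4 hc _ _ _ _ (0, 1, 1) 1 1 1 0 (by norm_num) g0 g2 g5 g5 (by norm_num) (by norm_num)
      (by norm_num)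
  have g8 : ip (3, 1, 2) ∈ hull (eA b) :=
    comb4 hc _ _ _ _ (3, 1, 2) 1 1 0 0 (by norm_num) g4 g5 g5 g5 (by norm_num) (by norm_num)
      (by norm_num)
  have e : P = hull (eA b) := by
    refine lp_eq_hull hP _ ?_ ?_
    · intro v hv
      simp only [eA, Finset.mem_insert, Finset.mem_singleton] at hv
      rcases hv with rfl | rfl | rfl | rfl | rfl | rfl | rfl <;> assumption
    · intro x hx
      have hm := hL x hx
      simp only [lA, List.mem_cons, List.not_mem_nil, or_false] at hm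
      rcases hm with rfl | rfl | rfl | rfl | rfl | rfl | rfl | rfl | rfl | rfl | rfl | rfl | rfl
      · exact g0
      · exact g1
      · exact g2
      · exact g3
      · exact g4
      · exact g5
      · exact g8
      · exact g7
      all_goals exact row hc g7 g6 (by norm_num) (hmax _ hx)
  rw [e]
  exact zeq_refl _

/-- The polytopes `B(a, b)`. -/
private lemma isB {P : Set (ℝ × ℝ × ℝ)} (hP : IsLP3 P) (hL : ∀ x : ℤ × ℤ × ℤ, ip x ∈ P → x ∈ lB)
    (h0 : ip (0, 0, 0) ∈ P) (h1 : ip (1, 0, 0) ∈ P) (h2 : ip (0, 1, 0) ∈ P) (h3 : ip (5, 0, 1) ∈ P)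
    (h4 : ip (6, 0, 1) ∈ P) (h5 : ip (1, 2, 3) ∈ P) (a b : ℤ) (ha1 : -2 ≤ a) (ha2 : a ≤ 1)
    (hb1 : 1 ≤ b) (hb5 : b ≤ 3) (hab : a + 3 ≤ 2 * b) (ha : ip (a, 1, 1) ∈ P)
    (hb : ip (b, 1, 1) ∈ P) (hmin : ∀ k : ℤ, ip (k, 1, 1) ∈ P → a ≤ k)
    (hmax : ∀ k : ℤ, ip (k, 1, 1) ∈ P → k ≤ b) : In16 P := by
  refine Or.inr (Or.inl ⟨a, b, ha1, ha2, hb1, hb5, hab, ?_⟩)
  have hc : Convex ℝ (hull (eB a b)) := convex_convexHull ℝ _
  have g0 : ip (0, 0, 0) ∈ hull (eB a b) := hullmem (by simp [eB])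
  have g1 : ip (1, 0, 0) ∈ hull (eB a b) := hullmem (by simp [eB])
  have g2 : ip (0, 1, 0) ∈ hull (eB a b) := hullmem (by simp [eB])
  have g3 : ip (5, 0, 1) ∈ hull (eB a b) := hullmem (by simp [eB])
  have g4 : ip (6, 0, 1) ∈ hull (eB a b) := hullmem (by simp [eB])
  have g5 : ip (1, 2, 3) ∈ hull (eB a b) := hullmem (by simp [eB])
  have g6 : ip (a, 1, 1) ∈ hull (eB a b) := hullmem (by simp [eB])
  have g7 : ip (b, 1, 1) ∈ hull (eB a b) := hullmem (by simp [eB])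
  have g8 : ip (3, 1, 2) ∈ hull (eB a b) :=
    comb4 hc _ _ _ _ (3, 1, 2) 1 1 0 0 (by norm_num) g3 g5 g5 g5 (by norm_num) (by norm_num)
      (by norm_num)
  have e : P = hull (eB a b) := by
    refine lp_eq_hull hP _ ?_ ?_
    · intro v hv
      simp only [eB, Finset.mem_insert, Finset.mem_singleton] at hv
      rcases hv with rfl | rfl | rfl | rfl | rfl | rfl | rfl | rfl <;> assumption
    · intro x hx
      have hm := hL x hx
      simp only [lB, List.mem_cons, List.not_mem_nil, or_false] at hm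
      rcases hm with rfl | rfl | rfl | rfl | rfl | rfl | rfl | rfl | rfl | rfl | rfl | rfl | rfl
      · exact g0
      · exact g1
      · exact g2
      · exact g3
      · exact g4
      · exact g5
      · exact g8
      all_goals exact row hc g6 g7 (hmin _ hx) (hmax _ hx)
  rw [e]
  exact zeq_refl _

/-- A point of a class. -/
private lemma cls {P : Set (ℝ × ℝ × ℝ)} (hpc : PC3 P) (L : List (ℤ × ℤ × ℤ))
    (hL : ∀ x : ℤ × ℤ × ℤ, ip x ∈ P → x ∈ L) (a b c : ℤ) : ∃ x ∈ L, ip x ∈ P ∧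
      (2 : ℤ) ∣ x.1 - a ∧ (2 : ℤ) ∣ x.2.1 - b ∧ (2 : ℤ) ∣ x.2.2 - c := by
  obtain ⟨x, y, z, h1, h2, h3, h4⟩ := hpc a b c
  exact ⟨(x, y, z), hL _ h1, h1, h2, h3, h4⟩

theorem regA {P : Set (ℝ × ℝ × ℝ)} (hP : IsLP3 P) (hpc : PC3 P) (hH : ¬ Hollow P)
    (hL : ∀ x : ℤ × ℤ × ℤ, ip x ∈ P → x ∈ lA) : Cr P 3 ∨ Cr P 5 ∨ In16 P := by
  by_cases h4 : ip (6, 0, 1) ∈ P
  swap
  · left
    refine ckR_sound chkA hP ?_
    intro x hx
    have hm := hL x hx
    simp only [lA, List.mem_cons, List.not_mem_nil, or_false] at hm ⊢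
    rcases hm with h | h | h | h | h | h | h | h | h | h | h | h | h
    all_goals first
      | (rw [h] at hx; exact absurd hx h4)
      | (simp [h])
  by_cases h5 : ip (0, 2, 3) ∈ P
  swap
  · exfalso
    refine hH (hollow_strip hP ?_)
    intro x hx
    have hm := hL x hx
    simp only [lA, List.mem_cons, List.not_mem_nil, or_false] at hm
    rcases hm with h | h | h | h | h | h | h | h | h | h | h | h | h
    all_goals first
      | (rw [h] at hx; exact absurd hx h5)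
      | (rw [h]; norm_num)
  have k0 : ip (0, 0, 0) ∈ P := by
    obtain ⟨x, hm, hx, c1, c2, c3⟩ := cls hpc lA hL 0 0 0
    simp only [lA, List.mem_cons, List.not_mem_nil, or_false] at hm
    rcases hm with rfl | rfl | rfl | rfl | rfl | rfl | rfl | rfl | rfl | rfl | rfl | rfl | rfl
    all_goals first | exact hx | (exfalso; dsimp only at c1 c2 c3; omega)
  have k1 : ip (1, 0, 0) ∈ P := by
    obtain ⟨x, hm, hx, c1, c2, c3⟩ := cls hpc lA hL 1 0 0
    simp only [lA, List.mem_cons, List.not_mem_nil, or_false] at hm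
    rcases hm with rfl | rfl | rfl | rfl | rfl | rfl | rfl | rfl | rfl | rfl | rfl | rfl | rfl
    all_goals first | exact hx | (exfalso; dsimp only at c1 c2 c3; omega)
  have k2 : ip (0, 1, 0) ∈ P := by
    obtain ⟨x, hm, hx, c1, c2, c3⟩ := cls hpc lA hL 0 1 0
    simp only [lA, List.mem_cons, List.not_mem_nil, or_false] at hm
    rcases hm with rfl | rfl | rfl | rfl | rfl | rfl | rfl | rfl | rfl | rfl | rfl | rfl | rfl
    all_goals first | exact hx | (exfalso; dsimp only at c1 c2 c3; omega)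
  have k3 : ip (5, 0, 1) ∈ P := by
    obtain ⟨x, hm, hx, c1, c2, c3⟩ := cls hpc lA hL 1 0 1
    simp only [lA, List.mem_cons, List.not_mem_nil, or_false] at hm
    rcases hm with rfl | rfl | rfl | rfl | rfl | rfl | rfl | rfl | rfl | rfl | rfl | rfl | rfl
    all_goals first | exact hx | (exfalso; dsimp only at c1 c2 c3; omega)
  have hk : ∀ k : ℤ, ip (k, 1, 1) ∈ P → 0 ≤ k ∧ k ≤ 5 := by
    intro k hk
    have hm := hL _ hk
    simp only [lA, List.mem_cons, List.not_mem_nil, or_false, Prod.mk.injEq] at hm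
    omega
  right; right
  by_cases m5 : ip (5, 1, 1) ∈ P
  · exact isA hP hL k0 k1 k2 k3 h4 h5 5 (by norm_num) (by norm_num) m5 (fun k h => (hk k h).2)
  by_cases m4 : ip (4, 1, 1) ∈ P
  · refine isA hP hL k0 k1 k2 k3 h4 h5 4 (by norm_num) (by norm_num) m4 (fun k h => ?_)
    have := hk k h
    by_contra hc
    have : k = 5 := by omega
    rw [this] at h
    exact m5 h
  by_cases m3 : ip (3, 1, 1) ∈ P
  · refine isA hP hL k0 k1 k2 k3 h4 h5 3 (by norm_num) (by norm_num) m3 (fun k h => ?_)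
    have := hk k h
    by_contra hc
    have : k = 5 ∨ k = 4 := by omega
    rcases this with rfl | rfl
    · exact m5 h
    · exact m4 h
  by_cases m2 : ip (2, 1, 1) ∈ P
  · refine isA hP hL k0 k1 k2 k3 h4 h5 2 (by norm_num) (by norm_num) m2 (fun k h => ?_)
    have := hk k h
    by_contra hc
    have : k = 5 ∨ k = 4 ∨ k = 3 := by omega
    rcases this with rfl | rfl | rfl
    · exact m5 h
    · exact m4 h
    · exact m3 h
  have m1 : ip (1, 1, 1) ∈ P := by
    obtain ⟨x, hm, hx, c1, c2, c3⟩ := cls hpc lA hL 1 1 1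
    simp only [lA, List.mem_cons, List.not_mem_nil, or_false] at hm
    rcases hm with rfl | rfl | rfl | rfl | rfl | rfl | rfl | rfl | rfl | rfl | rfl | rfl | rfl
    all_goals first | exact hx | exact absurd hx m3 | exact absurd hx m5 |
      (exfalso; dsimp only at c1 c2 c3; omega)
  refine isA hP hL k0 k1 k2 k3 h4 h5 1 (by norm_num) (by norm_num) m1 (fun k h => ?_)
  have := hk k h
  by_contra hc
  have : k = 5 ∨ k = 4 ∨ k = 3 ∨ k = 2 := by omega
  rcases this with rfl | rfl | rfl | rfl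
  · exact m5 h
  · exact m4 h
  · exact m3 h
  · exact m2 h

theorem regB {P : Set (ℝ × ℝ × ℝ)} (hP : IsLP3 P) (hpc : PC3 P) (hH : ¬ Hollow P)
    (hL : ∀ x : ℤ × ℤ × ℤ, ip x ∈ P → x ∈ lB) : Cr P 3 ∨ Cr P 5 ∨ In16 P := by
  by_cases h3 : ip (5, 0, 1) ∈ P
  swap
  · left
    refine ckR_sound chkB hP ?_
    intro x hx
    have hm := hL x hx
    simp only [lB, List.mem_cons, List.not_mem_nil, or_false] at hm ⊢
    rcases hm with h | h | h | h | h | h | h | h | h | h | h | h | h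
    all_goals first
      | (rw [h] at hx; exact absurd hx h3)
      | (simp [h])
  by_cases h5 : ip (1, 2, 3) ∈ P
  swap
  · exfalso
    refine hH (hollow_strip hP ?_)
    intro x hx
    have hm := hL x hx
    simp only [lB, List.mem_cons, List.not_mem_nil, or_false] at hm
    rcases hm with h | h | h | h | h | h | h | h | h | h | h | h | h
    all_goals first
      | (rw [h] at hx; exact absurd hx h5)
      | (rw [h]; norm_num)
  have k0 : ip (0, 0, 0) ∈ P := by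
    obtain ⟨x, hm, hx, c1, c2, c3⟩ := cls hpc lB hL 0 0 0
    simp only [lB, List.mem_cons, List.not_mem_nil, or_false] at hm
    rcases hm with rfl | rfl | rfl | rfl | rfl | rfl | rfl | rfl | rfl | rfl | rfl | rfl | rfl
    all_goals first | exact hx | (exfalso; dsimp only at c1 c2 c3; omega)
  have k1 : ip (1, 0, 0) ∈ P := by
    obtain ⟨x, hm, hx, c1, c2, c3⟩ := cls hpc lB hL 1 0 0
    simp only [lB, List.mem_cons, List.not_mem_nil, or_false] at hm
    rcases hm with rfl | rfl | rfl | rfl | rfl | rfl | rfl | rfl | rfl | rfl | rfl | rfl | rfl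
    all_goals first | exact hx | (exfalso; dsimp only at c1 c2 c3; omega)
  have k2 : ip (0, 1, 0) ∈ P := by
    obtain ⟨x, hm, hx, c1, c2, c3⟩ := cls hpc lB hL 0 1 0
    simp only [lB, List.mem_cons, List.not_mem_nil, or_false] at hm
    rcases hm with rfl | rfl | rfl | rfl | rfl | rfl | rfl | rfl | rfl | rfl | rfl | rfl | rfl
    all_goals first | exact hx | (exfalso; dsimp only at c1 c2 c3; omega)
  have k4 : ip (6, 0, 1) ∈ P := by
    obtain ⟨x, hm, hx, c1, c2, c3⟩ := cls hpc lB hL 0 0 1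
    simp only [lB, List.mem_cons, List.not_mem_nil, or_false] at hm
    rcases hm with rfl | rfl | rfl | rfl | rfl | rfl | rfl | rfl | rfl | rfl | rfl | rfl | rfl
    all_goals first | exact hx | (exfalso; dsimp only at c1 c2 c3; omega)
  have hc := cvx hP
  have k1' : ip (1, 1, 1) ∈ P :=
    comb4 hc _ _ _ _ (1, 1, 1) 1 3 1 2 (by norm_num) k0 k2 h3 h5 (by norm_num) (by norm_num)
      (by norm_num)
  have hk : ∀ k : ℤ, ip (k, 1, 1) ∈ P → -2 ≤ k ∧ k ≤ 3 := by
    intro k hk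
    have hm := hL _ hk
    simp only [lB, List.mem_cons, List.not_mem_nil, or_false, Prod.mk.injEq] at hm
    omega
  -- the ends of the row
  obtain ⟨b, hb1, hb3, hb, hbmax⟩ : ∃ b : ℤ, 1 ≤ b ∧ b ≤ 3 ∧ ip (b, 1, 1) ∈ P ∧
      ∀ k : ℤ, ip (k, 1, 1) ∈ P → k ≤ b := by
    by_cases m3 : ip (3, 1, 1) ∈ P
    · exact ⟨3, by norm_num, by norm_num, m3, fun k h => (hk k h).2⟩
    by_cases m2 : ip (2, 1, 1) ∈ P
    · refine ⟨2, by norm_num, by norm_num, m2, fun k h => ?_⟩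
      have := hk k h
      by_contra hcon
      have : k = 3 := by omega
      rw [this] at h
      exact m3 h
    · refine ⟨1, by norm_num, by norm_num, k1', fun k h => ?_⟩
      have := hk k h
      by_contra hcon
      have : k = 3 ∨ k = 2 := by omega
      rcases this with rfl | rfl
      · exact m3 h
      · exact m2 h
  obtain ⟨a, ha2, ha1, ha, hamin⟩ : ∃ a : ℤ, -2 ≤ a ∧ a ≤ 1 ∧ ip (a, 1, 1) ∈ P ∧
      ∀ k : ℤ, ip (k, 1, 1) ∈ P → a ≤ k := by
    by_cases m2 : ip (-2, 1, 1) ∈ P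
    · exact ⟨-2, by norm_num, by norm_num, m2, fun k h => (hk k h).1⟩
    by_cases m1 : ip (-1, 1, 1) ∈ P
    · refine ⟨-1, by norm_num, by norm_num, m1, fun k h => ?_⟩
      have := hk k h
      by_contra hcon
      have : k = -2 := by omega
      rw [this] at h
      exact m2 h
    by_cases m0 : ip (0, 1, 1) ∈ P
    · refine ⟨0, by norm_num, by norm_num, m0, fun k h => ?_⟩
      have := hk k h
      by_contra hcon
      have : k = -2 ∨ k = -1 := by omega
      rcases this with rfl | rfl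
      · exact m2 h
      · exact m1 h
    · refine ⟨1, by norm_num, by norm_num, k1', fun k h => ?_⟩
      have := hk k h
      by_contra hcon
      have : k = -2 ∨ k = -1 ∨ k = 0 := by omega
      rcases this with rfl | rfl | rfl
      · exact m2 h
      · exact m1 h
      · exact m0 h
  by_cases hab : a + 3 ≤ 2 * b
  · exact Or.inr (Or.inr (isB hP hL k0 k1 k2 h3 k4 h5 a b ha2 ha1 hb1 hb3 hab ha hb hamin hbmax))
  · have hab' : b = 1 ∧ 0 ≤ a := by omega
    obtain ⟨rfl, ha0⟩ := hab'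
    left
    refine ckR_sound chkB01 hP ?_
    intro x hx
    have hm := hL x hx
    simp only [lB, List.mem_cons, List.not_mem_nil, or_false] at hm ⊢
    rcases hm with h | h | h | h | h | h | h | h | h | h | h | h | h
    all_goals first
      | (simp [h]; done)
      | (exfalso; rw [h] at hx; have i1 := hamin _ hx; have i2 := hbmax _ hx; omega)

theorem regC {P : Set (ℝ × ℝ × ℝ)} (hP : IsLP3 P) (hpc : PC3 P) (hH : ¬ Hollow P)
    (hL : ∀ x : ℤ × ℤ × ℤ, ip x ∈ P → x ∈ lC) : Cr P 3 ∨ Cr P 5 ∨ In16 P := by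
  by_cases h0 : ip (0, 0, 0) ∈ P
  swap
  · right; left
    refine ckR_sound chkC hP ?_
    intro x hx
    have hm := hL x hx
    simp only [lC, List.mem_cons, List.not_mem_nil, or_false] at hm ⊢
    rcases hm with h | h | h | h | h | h | h | h | h
    all_goals first
      | (rw [h] at hx; exact absurd hx h0)
      | (simp [h])
  by_cases h5 : ip (2, 2, 2) ∈ P
  swap
  · exfalso
    refine hH (hollow_strip hP ?_)
    intro x hx
    have hm := hL x hx
    simp only [lC, List.mem_cons, List.not_mem_nil, or_false] at hm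
    rcases hm with h | h | h | h | h | h | h | h | h
    all_goals first
      | (rw [h] at hx; exact absurd hx h5)
      | (rw [h]; norm_num)
  have k1 : ip (1, 0, 0) ∈ P := by
    obtain ⟨x, hm, hx, c1, c2, c3⟩ := cls hpc lC hL 1 0 0
    simp only [lC, List.mem_cons, List.not_mem_nil, or_false] at hm
    rcases hm with rfl | rfl | rfl | rfl | rfl | rfl | rfl | rfl | rfl
    all_goals first | exact hx | (exfalso; dsimp only at c1 c2 c3; omega)
  have k2 : ip (0, 1, 0) ∈ P := by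
    obtain ⟨x, hm, hx, c1, c2, c3⟩ := cls hpc lC hL 0 1 0
    simp only [lC, List.mem_cons, List.not_mem_nil, or_false] at hm
    rcases hm with rfl | rfl | rfl | rfl | rfl | rfl | rfl | rfl | rfl
    all_goals first | exact hx | (exfalso; dsimp only at c1 c2 c3; omega)
  have k3 : ip (5, 0, 1) ∈ P := by
    obtain ⟨x, hm, hx, c1, c2, c3⟩ := cls hpc lC hL 1 0 1
    simp only [lC, List.mem_cons, List.not_mem_nil, or_false] at hm
    rcases hm with rfl | rfl | rfl | rfl | rfl | rfl | rfl | rfl | rfl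
    all_goals first | exact hx | (exfalso; dsimp only at c1 c2 c3; omega)
  have k4 : ip (6, 0, 1) ∈ P := by
    obtain ⟨x, hm, hx, c1, c2, c3⟩ := cls hpc lC hL 0 0 1
    simp only [lC, List.mem_cons, List.not_mem_nil, or_false] at hm
    rcases hm with rfl | rfl | rfl | rfl | rfl | rfl | rfl | rfl | rfl
    all_goals first | exact hx | (exfalso; dsimp only at c1 c2 c3; omega)
  have k6 : ip (3, 1, 2) ∈ P := by
    obtain ⟨x, hm, hx, c1, c2, c3⟩ := cls hpc lC hL 1 1 0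
    simp only [lC, List.mem_cons, List.not_mem_nil, or_false] at hm
    rcases hm with rfl | rfl | rfl | rfl | rfl | rfl | rfl | rfl | rfl
    all_goals first | exact hx | (exfalso; dsimp only at c1 c2 c3; omega)
  right; right; right; right
  have hc : Convex ℝ (hull eC) := convex_convexHull ℝ _
  have g0 : ip (0, 0, 0) ∈ hull eC := hullmem (by simp [eC])
  have g1 : ip (1, 0, 0) ∈ hull eC := hullmem (by simp [eC])
  have g2 : ip (0, 1, 0) ∈ hull eC := hullmem (by simp [eC])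
  have g3 : ip (5, 0, 1) ∈ hull eC := hullmem (by simp [eC])
  have g4 : ip (6, 0, 1) ∈ hull eC := hullmem (by simp [eC])
  have g5 : ip (2, 2, 2) ∈ hull eC := hullmem (by simp [eC])
  have g6 : ip (3, 1, 2) ∈ hull eC := hullmem (by simp [eC])
  have g7 : ip (1, 1, 1) ∈ hull eC :=
    comb4 hc _ _ _ _ (1, 1, 1) 1 1 0 0 (by norm_num) g0 g5 g5 g5 (by norm_num) (by norm_num)
      (by norm_num)
  have g8 : ip (2, 1, 1) ∈ hull eC :=
    comb4 hc _ _ _ _ (2, 1, 1) 1 2 2 3 (by norm_num) g0 g2 g3 g5 (by norm_num) (by norm_num)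
      (by norm_num)
  have e : P = hull eC := by
    refine lp_eq_hull hP _ ?_ ?_
    · intro v hv
      simp only [eC, Finset.mem_insert, Finset.mem_singleton] at hv
      rcases hv with rfl | rfl | rfl | rfl | rfl | rfl | rfl <;> assumption
    · intro x hx
      have hm := hL x hx
      simp only [lC, List.mem_cons, List.not_mem_nil, or_false] at hm
      rcases hm with rfl | rfl | rfl | rfl | rfl | rfl | rfl | rfl | rfl <;> assumption
  rw [e]
  exact zeq_refl _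

/-- The three lists. -/
def l16 : Fin 3 → List (ℤ × ℤ × ℤ)
  | 0 => lA
  | 1 => lB
  | 2 => lC

/-- A polytope whose integer points are in a frame image of one of the three lists. -/
theorem reg16 (hfr1 : S_fr1) (hfr2 : S_fr2) {P : Set (ℝ × ℝ × ℝ)} (hP : IsLP3 P) (hpc : PC3 P)
    (hH : ¬ Hollow P) (f : ℝ × ℝ × ℝ → ℝ × ℝ × ℝ) (hf : IsFr f) (k : Fin 3)
    (hL : ∀ x : ℤ × ℤ × ℤ, ip x ∈ P → ∃ y ∈ l16 k, f (ip y) = ip x) :
    Cr P 3 ∨ Cr P 5 ∨ In16 P := by
  obtain ⟨g, hg, hgf, hfg⟩ := hfr1.1 f hf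
  obtain ⟨-, f2, f3, -, -, -, f7⟩ := hfr2 f hf P
  have hPP : g ⁻¹' (f ⁻¹' P) = P := by
    ext v
    show f (g v) ∈ P ↔ v ∈ P
    rw [hfg]
  obtain ⟨-, -, -, g4, -, g6, -⟩ := hfr2 g hg (f ⁻¹' P)
  rw [hPP] at g4 g6
  have hH' : ¬ Hollow (f ⁻¹' P) := fun h => hH (g6 h)
  have hL' : ∀ x : ℤ × ℤ × ℤ, ip x ∈ f ⁻¹' P → x ∈ l16 k := by
    intro x hx
    obtain ⟨w, hw⟩ := hfr1.2.2.1 f hf x
    have hx' : ip w ∈ P := by
      rw [← hw]
      exact hx
    obtain ⟨y, hy, hyx⟩ := hL w hx'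
    have h1 : ip y = ip x := by
      have := congrArg g (hyx.trans hw.symm)
      rwa [hgf, hgf] at this
    have h2 : y = x := by
      unfold ip at h1
      simp only [Prod.mk.injEq, Int.cast_inj] at h1
      exact Prod.ext h1.1 (Prod.ext h1.2.1 h1.2.2)
    rw [← h2]
    exact hy
  have key : Cr (f ⁻¹' P) 3 ∨ Cr (f ⁻¹' P) 5 ∨ In16 (f ⁻¹' P) := by
    fin_cases k
    · exact regA (f2 hP) (f3 hpc) hH' hL'
    · exact regB (f2 hP) (f3 hpc) hH' hL'
    · exact regC (f2 hP) (f3 hpc) hH' hL'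
  rcases key with h | h | h
  · exact Or.inl (g4 3 h)
  · exact Or.inr (Or.inl (g4 5 h))
  · refine Or.inr (Or.inr ?_)
    rcases h with ⟨b, h1, h2, h3⟩ | ⟨a, b, h1, h2, h3, h4, h5, h6⟩ | h
    · exact Or.inl ⟨b, h1, h2, f7 _ h3⟩
    · exact Or.inr (Or.inl ⟨a, b, h1, h2, h3, h4, h5, f7 _ h6⟩)
    · exact Or.inr (Or.inr (f7 _ h))

end Pool.Agent.Lib.MP_0bc52e_nt.T
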